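import Pool.Agent.R390.Abs

/-!
# The Bloch–Kato Selmer group `H¹_f(ℚ, V_p A)` of the abelian variety `A = E ⊗ M` over `ℚ`

`E` is an elliptic curve over the field `k` (later `k = ℚ`) and `M = ℤ^g` a lattice with an action `R` of
the absolute Galois group of `k`.  The points of `A` over an algebraic closure are the `g`-tuples of
points of `E`.  `V_p A = T_p A ⊗ ℚ_p` is described by sequences of points.  Only the finite places of `ℚ`
give local conditions.  For `p = 2` it is shown that a cocycle with values in `V_2 A` is trivial at the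
real place.
-/

set_option autoImplicit false

namespace Pool.Agent.J4.H67.BK

open WeierstrassCurve
open Pool.Agent.TH841.SH.D (Pt act Gal)

/-- The action of an integral matrix on `ℤ^g ⊗ G = G^g`. -/
def mat {G : Type} [AddCommGroup G] {g : ℕ} (A : Matrix (Fin g) (Fin g) ℤ) (P : Fin g → G) :
    Fin g → G := fun i => ∑ j, A i j • P j

section defs

variable {k : Type} [Field k] {g : ℕ} (W : WeierstrassCurve k) (R : Gal k →* GL (Fin g) ℤ)

/-- The points of `A` over an extension of `k` over which the action on `M` is trivial. -/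
abbrev PtA (g : ℕ) (L : Type) [Field L] [Algebra k L] : Type := Fin g → Pt W L

/-- The action of the Galois group on the points of `A`: `σ` applied to the coordinates, and then the
matrix `R(σ)`. -/
noncomputable def actA (σ : Gal k) (P : PtA W g (AlgebraicClosure k)) :
    PtA W g (AlgebraicClosure k) :=
  mat (R σ : Matrix (Fin g) (Fin g) ℤ) (fun i => act W σ.toAlgHom (P i))

/-- The rational Tate module `V_p A = T_p A ⊗ ℚ_p`: the sequences `x₀, x₁, …` of points of `A` over the
algebraic closure, of `p`-power order, with `p xₙ₊₁ = xₙ` (`xₙ` is the class of `p⁻ⁿ x` in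
`V_p A / T_p A = A[p ^ ∞]`). -/
def InV (p : ℕ) {g : ℕ} (W : WeierstrassCurve k) (x : ℕ → PtA W g (AlgebraicClosure k)) : Prop :=
  ∀ n, p • x (n + 1) = x n ∧ ∃ m : ℕ, (p ^ m : ℕ) • x n = 0

/-- `H⁰(k, V_p A) = 0`: the elements of `V_p A` fixed by the absolute Galois group of `k` are zero. -/
def NoInvariants (p : ℕ) : Prop :=
  ∀ x : ℕ → PtA W g (AlgebraicClosure k), InV p W x → (∀ σ n, actA W R σ (x n) = x n) →
    ∀ n, x n = 0

/-- `c` is a continuous `1`-cocycle of the absolute Galois group of `k` with values in `V_p A`: each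
coordinate is locally constant, and `c (σ τ) = c σ + σ (c τ)`. -/
def IsCocycleV (p : ℕ) (c : Gal k → ℕ → PtA W g (AlgebraicClosure k)) : Prop :=
  (∀ n, IsLocallyConstant fun σ => c σ n) ∧ (∀ σ, InV p W (c σ)) ∧
    ∀ σ τ n, c (σ * τ) n = c σ n + actA W R σ (c τ n)

/-- The restriction of `c` to the absolute Galois group of the extension `K` of `k` (a completion at a
finite place) is in the image of the Kummer map `A(K) ⊗ ℚ_p → H¹(K, V_p A)`: for every embedding `ι` of
the algebraic closures there are `Q₀, Q₁, …` in `A` over the algebraic closure of `K` with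
`p Qₙ₊₁ = Qₙ` and `(c τ)ₙ = τ Qₙ - Qₙ`. -/
def LocallyKummer (p : ℕ) (K : Type) [Field K] [Algebra k K]
    (c : Gal k → ℕ → PtA W g (AlgebraicClosure k)) : Prop :=
  ∀ ι : AlgebraicClosure k →ₐ[k] AlgebraicClosure K, ∃ Q : ℕ → PtA W g (AlgebraicClosure K),
    (∀ n, p • Q (n + 1) = Q n) ∧
    ∀ (τ : Gal K) (σ : Gal k), (∀ x, τ (ι x) = ι (σ x)) → ∀ n,
      (fun i => act W ι (c σ n i)) = mat (R σ : Matrix (Fin g) (Fin g) ℤ)
        (fun i => act W (τ.toAlgHom.restrictScalars k) (Q n i)) - Q n

end defs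

/-- `H¹_f(ℚ, V_p A) = 0`: every continuous cocycle with values in `V_p A` whose restriction to the
absolute Galois group of `ℚ_l` is in the image of the Kummer map, for every prime `l`, is a
coboundary. -/
def SelmerZero {g : ℕ} (W : WeierstrassCurve ℚ) (R : Gal ℚ →* GL (Fin g) ℤ) (p : ℕ) : Prop :=
  ∀ c : Gal ℚ → ℕ → PtA W g (AlgebraicClosure ℚ), IsCocycleV W R p c →
    (∀ (l : ℕ) [Fact l.Prime], LocallyKummer W R p ℚ_[l] c) →
    ∃ x, InV p W x ∧ ∀ σ n, c σ n = actA W R σ (x n) - x n

section mats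

variable {G H : Type} [AddCommGroup G] [AddCommGroup H] {g : ℕ}

lemma mat_add (A : Matrix (Fin g) (Fin g) ℤ) (P Q : Fin g → G) :
    mat A (P + Q) = mat A P + mat A Q := by
  funext i
  simp only [mat, Pi.add_apply, smul_add, Finset.sum_add_distrib]

lemma mat_zero (A : Matrix (Fin g) (Fin g) ℤ) : mat A (0 : Fin g → G) = 0 := by
  funext i
  simp only [mat, Pi.zero_apply, smul_zero, Finset.sum_const_zero]

lemma mat_neg (A : Matrix (Fin g) (Fin g) ℤ) (P : Fin g → G) : mat A (-P) = -mat A P := by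
  funext i
  simp only [mat, Pi.neg_apply, smul_neg, Finset.sum_neg_distrib]

lemma mat_one (P : Fin g → G) : mat (1 : Matrix (Fin g) (Fin g) ℤ) P = P := by
  funext i
  simp only [mat, Matrix.one_apply, ite_smul, one_smul, zero_smul, Finset.sum_ite_eq,
    Finset.mem_univ, if_true]

lemma mat_map (φ : G →+ H) (A : Matrix (Fin g) (Fin g) ℤ) (P : Fin g → G) :
    (fun i => φ (mat A P i)) = mat A (fun i => φ (P i)) := by
  funext i
  simp only [mat, map_sum, map_zsmul]

end mats

section proofs

variable {k : Type} [Field k] {g : ℕ} {W : WeierstrassCurve k} {R : Gal k →* GL (Fin g) ℤ}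

/-- the action as a homomorphism -/
noncomputable def actH (W : WeierstrassCurve k) (R : Gal k →* GL (Fin g) ℤ) (σ : Gal k) :
    PtA W g (AlgebraicClosure k) →+ PtA W g (AlgebraicClosure k) where
  toFun := actA W R σ
  map_zero' := by
    show mat _ (fun i => act W σ.toAlgHom 0) = 0
    simp only [map_zero]
    exact mat_zero _
  map_add' P Q := by
    show mat _ (fun i => act W σ.toAlgHom (P i + Q i)) = _
    simp only [map_add]
    exact mat_add _ _ _

lemma actH_apply (σ : Gal k) (P : PtA W g (AlgebraicClosure k)) :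
    actH W R σ P = actA W R σ P := rfl

lemma some_congr {V : WeierstrassCurve k} {x y x' y' : k}
    {h : V.toAffine.Nonsingular x y} {h' : V.toAffine.Nonsingular x' y'} (hx : x = x') (hy : y = y') :
    Affine.Point.some x y h = Affine.Point.some x' y' h' := by
  subst hx
  subst hy
  rfl

lemma act_act (W : WeierstrassCurve k) {F L L' : Type} [Field F] [Field L]
    [Field L'] [Algebra k F] [Algebra k L] [Algebra k L'] (ψ : L →ₐ[k] L') (φ : F →ₐ[k] L)
    (P : Pt W F) : act W ψ (act W φ P) = act W (ψ.comp φ) P := by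
  rcases P with _ | ⟨x, y, h⟩
  · rfl
  · rfl

lemma act_id (W : WeierstrassCurve k) {F : Type} [Field F]
    [Algebra k F] (φ : F →ₐ[k] F) (hφ : ∀ x, φ x = x) (P : Pt W F) : act W φ P = P := by
  rcases P with _ | ⟨x, y, h⟩
  · rfl
  · exact some_congr (hφ _) (hφ _)

lemma actA_one (P : PtA W g (AlgebraicClosure k)) : actA W R 1 P = P := by
  show mat ((R 1 : GL (Fin g) ℤ) : Matrix (Fin g) (Fin g) ℤ)
    (fun i => act W (1 : Gal k).toAlgHom (P i)) = P
  rw [map_one, Units.val_one, mat_one]
  funext i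
  exact act_id _ _ (fun _ => rfl) _

/-- the automorphisms of the algebraic closure of `ℝ` -/
theorem real_aut : ∃ s : Gal ℝ, (∀ x, s (s x) = x) ∧ ∀ τ : Gal ℝ, τ = 1 ∨ τ = s := by
  have : IsAlgClosure ℝ ℂ := ⟨inferInstance, inferInstance⟩
  let e : AlgebraicClosure ℝ ≃ₐ[ℝ] ℂ := IsAlgClosure.equiv ℝ (AlgebraicClosure ℝ) ℂ
  refine ⟨(e.trans Complex.conjAe).trans e.symm, fun x => ?_, fun τ => ?_⟩
  · simp
  · have h := Complex.real_algHom_eq_id_or_conj
      (((e.symm.trans τ).trans e : ℂ ≃ₐ[ℝ] ℂ) : ℂ →ₐ[ℝ] ℂ)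
    rcases h with h | h
    · left
      refine AlgEquiv.ext fun x => ?_
      have h1 := DFunLike.congr_fun h (e x)
      simp only [AlgEquiv.coe_toAlgHom, AlgEquiv.trans_apply, AlgEquiv.symm_apply_apply,
        AlgHom.coe_id, id] at h1
      have h2 := e.injective h1
      rw [h2]
      rfl
    · right
      refine AlgEquiv.ext fun x => ?_
      have h1 := DFunLike.congr_fun h (e x)
      simp only [AlgEquiv.coe_toAlgHom, AlgEquiv.trans_apply, AlgEquiv.symm_apply_apply] at h1
      show τ x = e.symm (Complex.conjAe (e x))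
      rw [← h1, AlgEquiv.symm_apply_apply]

/-- the restriction of the elements of a Galois group -/
theorem exists_restrict {K : Type} [Field K] [Algebra k K]
    (ι : AlgebraicClosure k →ₐ[k] AlgebraicClosure K) (τ : Gal K) :
    ∃ σ : Gal k, ∀ x, τ (ι x) = ι (σ x) := by
  let _ : Algebra (AlgebraicClosure k) (AlgebraicClosure K) := ι.toRingHom.toAlgebra
  have : IsScalarTower k (AlgebraicClosure k) (AlgebraicClosure K) :=
    IsScalarTower.of_algebraMap_eq fun x => (ι.commutes x).symm
  refine ⟨(τ.restrictScalars k).restrictNormal (AlgebraicClosure k), fun x => ?_⟩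
  exact ((τ.restrictScalars k).restrictNormal_commutes (AlgebraicClosure k) x).symm

/-- A cocycle with values in `V_2 A` is trivial, at each level, over an extension `K` whose absolute
Galois group has at most two elements. -/
theorem real_triv {K : Type} [Field K] [Algebra k K]
    (haut : ∃ s : Gal K, (∀ x, s (s x) = x) ∧ ∀ τ : Gal K, τ = 1 ∨ τ = s)
    {c : Gal k → ℕ → PtA W g (AlgebraicClosure k)}
    (hc : IsCocycleV W R 2 c) (n : ℕ) (ι : AlgebraicClosure k →ₐ[k] AlgebraicClosure K) :
    ∃ P : PtA W g (AlgebraicClosure K),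
      ∀ (τ : Gal K) (σ : Gal k), (∀ x, τ (ι x) = ι (σ x)) →
        (fun i => act W ι (c σ n i)) = mat (R σ : Matrix (Fin g) (Fin g) ℤ)
          (fun i => act W (τ.toAlgHom.restrictScalars k) (P i)) - P := by
  obtain ⟨-, h2, h3⟩ := hc
  obtain ⟨s, hs, hτ⟩ := haut
  obtain ⟨σ₀, hσ₀⟩ := exists_restrict ι s
  have d1 : ∀ m, c 1 m = 0 := by
    intro m
    have h4 := h3 1 1 m
    rw [mul_one, actA_one] at h4
    exact left_eq_add.1 h4
  have hinv : σ₀ * σ₀ = 1 := by
    refine AlgEquiv.ext fun x => ?_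
    apply ι.toRingHom.injective
    show ι (σ₀ (σ₀ x)) = ι x
    rw [← hσ₀, ← hσ₀, hs]
  have hd : actA W R σ₀ (c σ₀ (n + 1)) = - c σ₀ (n + 1) := by
    have h4 := h3 σ₀ σ₀ (n + 1)
    rw [hinv, d1] at h4
    exact (neg_eq_of_add_eq_zero_right h4.symm).symm
  refine ⟨fun i => -(act W ι (c σ₀ (n + 1) i)), fun τ σ hx => ?_⟩
  rcases hτ τ with rfl | rfl
  · have e1 : σ = 1 := by
      refine AlgEquiv.ext fun x => ?_
      apply ι.toRingHom.injective
      exact (hx x).symm
    rw [e1, map_one, Units.val_one, mat_one, d1]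
    funext i
    have e2 : act W ((1 : Gal K).toAlgHom.restrictScalars k)
        (-(act W ι (c σ₀ (n + 1) i))) = -(act W ι (c σ₀ (n + 1) i)) :=
      act_id _ _ (fun _ => rfl) _
    rw [Pi.sub_apply, e2, sub_self]
    exact map_zero _
  · have e1 : σ = σ₀ := by
      refine AlgEquiv.ext fun x => ?_
      exact ι.toRingHom.injective ((hx x).symm.trans (hσ₀ x))
    have e2 : (τ.toAlgHom.restrictScalars k).comp ι = ι.comp σ₀.toAlgHom :=
      AlgHom.ext fun x => hσ₀ x
    have e3 : (fun i => act W (τ.toAlgHom.restrictScalars k)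
        (-(act W ι (c σ₀ (n + 1) i)))) =
        -(fun i => act W ι (act W σ₀.toAlgHom (c σ₀ (n + 1) i))) := by
      funext i
      rw [map_neg, act_act, e2, ← act_act, Pi.neg_apply]
    have e4 : mat (R σ₀ : Matrix (Fin g) (Fin g) ℤ)
        (fun i => act W ι (act W σ₀.toAlgHom (c σ₀ (n + 1) i))) =
        fun i => -(act W ι (c σ₀ (n + 1) i)) := by
      rw [← mat_map]
      funext i
      have e5 := congrFun hd i
      unfold actA at e5
      rw [e5, Pi.neg_apply, map_neg]
    rw [e1, e3, mat_neg, e4]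
    funext i
    have e6 := congrFun ((h2 σ₀ n).1) i
    rw [← e6, Pi.sub_apply, Pi.neg_apply, Pi.smul_apply, map_nsmul, two_nsmul]
    abel

/-- **The algebraic side of the formula of order zero.**  If `A(k)` is finite and the `2`-primary part
of the group of the classes which satisfy the local conditions `Good` is zero then `H⁰(k, V_2 A) = 0` and
every cocycle with values in `V_2 A` which satisfies `Good` at each level is a coboundary. -/
theorem alg_side [CharZero k] (Good : (Gal k → PtA W g (AlgebraicClosure k)) → Prop)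
    (hfin : {P : PtA W g (AlgebraicClosure k) | ∀ σ : Gal k, actA W R σ P = P}.Finite)
    (hsha : ∀ f : Gal k → PtA W g (AlgebraicClosure k),
      IsLocallyConstant f → (∀ σ τ : Gal k, f (σ * τ) = f σ + actA W R σ (f τ)) → Good f →
      ∀ j : ℕ, (∃ P : PtA W g (AlgebraicClosure k), ∀ σ : Gal k,
        (2 ^ j • f) σ = actA W R σ P - P) →
      ∃ P : PtA W g (AlgebraicClosure k), ∀ σ : Gal k, f σ = actA W R σ P - P) :
    NoInvariants W R 2 ∧ ∀ c : Gal k → ℕ → PtA W g (AlgebraicClosure k), IsCocycleV W R 2 c →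
      (∀ n, Good fun σ => c σ n) →
      ∃ x, InV 2 W x ∧ ∀ σ n, c σ n = actA W R σ (x n) - x n := by
  have hfin' : (Pool.Agent.R390.Abs.FixIn (⊤ : AddSubgroup (PtA W g (AlgebraicClosure k)))
      (fun σ => actH W R σ)).Finite := by
    refine hfin.subset ?_
    rintro P ⟨-, hP⟩
    exact hP
  constructor
  · intro x hx hfix
    exact Pool.Agent.R390.Abs.no_inv (p := 2) (⊤ : AddSubgroup (PtA W g (AlgebraicClosure k)))
      (fun σ => actH W R σ) hfin' x (fun _ => AddSubgroup.mem_top _) (fun n => (hx n).1)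
      (fun n => (hx n).2) (fun σ n => hfix σ n)
  · intro c hc hloc
    obtain ⟨h1, h2, h3⟩ := id hc
    have hcob : ∀ n, ∃ P ∈ (⊤ : AddSubgroup (PtA W g (AlgebraicClosure k))),
        ∀ σ, c σ n = actH W R σ P - P := by
      intro n
      obtain ⟨K, hK⟩ := Pool.Agent.R390.Abs.bdd_tor (p := 2) (h1 n) (fun σ => (h2 σ n).2)
      obtain ⟨P, hP⟩ := hsha (fun σ => c σ n) (h1 n) (fun σ τ => h3 σ τ n) (hloc n) K
        ⟨0, fun σ => by
          have e0 : actA W R σ (0 : PtA W g (AlgebraicClosure k)) = 0 := map_zero (actH W R σ)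
          rw [e0, sub_zero]
          exact hK σ⟩
      exact ⟨P, AddSubgroup.mem_top _, hP⟩
    obtain ⟨x, hx1, hx2⟩ := Pool.Agent.R390.Abs.lift_sub (p := 2)
      (⊤ : AddSubgroup (PtA W g (AlgebraicClosure k))) (fun σ => actH W R σ)
      (fun σ P _ => AddSubgroup.mem_top _) Nat.prime_two hfin' c
      (fun σ n => AddSubgroup.mem_top _) (fun σ n => (h2 σ n).1)
      (fun n => Pool.Agent.R390.Abs.bdd_tor (p := 2) (h1 n) (fun σ => (h2 σ n).2)) hcob
    exact ⟨x, fun n => ⟨(hx1 n).2.1, (hx1 n).2.2⟩, hx2⟩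

end proofs

end Pool.Agent.J4.H67.BK
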